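import Pool.Agent.Y843.HS.Stm
import Pool.Agent.TH423.SH.FLIP
import Pool.Agent.TH423.SH.FLLP

/-!
Project HS (job 1172): fundamental lemma count in a class modulo `D`, with arbitrary sets of
classes (adapted from `Pool/Agent/Y814/PSP/C1.lean`).
-/

set_option autoImplicit false

namespace Pool.Agent.Y151.HS

open Finset
open Pool.Agent.TH423.SH Pool.Agent.TH423.SH.FLIP
open Pool.Agent.Y843.HS

theorem flc : S_FLC := by
  classical
  obtain ⟨C0, hC0, hF⟩ := fll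
  refine ⟨2 * C0 + 4, by omega, ?_⟩
  intro κ b s J hb hs Om hSv D a A X hD hPD
  set P := Pr s (2 ^ 2 ^ J) with hP
  have hPmem : ∀ p ∈ P, p.Prime ∧ (2 * C0 + 4) * (κ + 1) < p ∧ p ≤ 2 ^ 2 ^ J := by
    intro p hp
    rw [hP, Pr, mem_filter, mem_Ioc] at hp
    exact ⟨hp.2, lt_of_le_of_lt hs hp.1.1, hp.1.2⟩
  have hC : C0 * (κ + 1) ≤ (2 * C0 + 4) * (κ + 1) := Nat.mul_le_mul_right _ (by omega)
  have hD' : (0 : ℝ) < D := by exact_mod_cast hD
  have hA : 0 ≤ (X : ℝ) / D := div_nonneg (Nat.cast_nonneg X) hD'.le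
  have h1 := hF κ b J ((2 * C0 + 4) * (κ + 1)) P (fun p => 1 / (p : ℝ)) Om
    (hC.trans hb) hC hPmem (fun p hp => (hSv p hp).1)
    (by
      intro p hp
      have hp2 : (2 : ℝ) ≤ p := by exact_mod_cast (hPmem p hp).1.two_le
      refine ⟨by positivity, ?_⟩
      apply one_div_le_one_div_of_le (by linarith)
      linarith)
    ((Ioc A (A + X)).filter (fun n => n % D = a % D)) (fun _ => 1) ((X : ℝ) / D) (fun _ => 1)
    (fun _ _ => zero_le_one) hA (fun _ => zero_le_one)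
    (by
      intro T hT _ c hc
      obtain ⟨r, hr⟩ := crt_set D a c T (fun p hp => ⟨(hPmem p (hT hp)).1, hPD p (hT hp)⟩)
        (fun p hp => (hSv p (hT hp)).2 _ (hc p hp))
      rw [sum_const, nsmul_eq_mul, mul_one, filter_filter]
      have e1 : (Ioc A (A + X)).filter (fun n => n % D = a % D ∧ ∀ p ∈ T, n % p = c p) =
          (Ioc A (A + X)).filter (fun n => n ≡ r [MOD D * ∏ p ∈ T, p]) :=
        filter_congr fun n _ => hr n
      have hpos : 0 < D * ∏ p ∈ T, p :=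
        Nat.mul_pos hD (Finset.prod_pos fun p hp => (hPmem p (hT hp)).1.pos)
      have h2 := cnt_Ioc A (A + X) (D * ∏ p ∈ T, p) r (by omega) hpos
      rw [e1]
      have e2 : (((A + X : ℕ) : ℝ) - A) / ((D * ∏ p ∈ T, p : ℕ) : ℝ) =
          (X : ℝ) / D * ∏ p ∈ T, 1 / (p : ℝ) := by
        push_cast
        rw [← div_div, div_eq_mul_inv _ (∏ p ∈ T, (p : ℝ)), ← prod_inv_distrib,
          show ((A : ℝ) + (X : ℝ) - A) = X by ring]
        simp only [one_div]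
      rw [e2] at h2
      exact h2)
  have e3 : ∏ p ∈ P, (1 - ((Om p).card : ℝ) * (1 / (p : ℝ))) =
      ∏ p ∈ P, (1 - ((Om p).card : ℝ) / p) := by
    apply prod_congr rfl
    intro p _
    rw [mul_one_div]
  rw [e3, sum_const, nsmul_eq_mul, mul_one, filter_filter] at h1
  set Y : ℕ := (2 ^ 2 ^ J) ^ (C0 * b) with hY
  suffices hs' : ((J : ℝ) + 2) * ∑ T ∈ P.powerset.filter (fun T : Finset ℕ => ∏ p ∈ T, p ≤ Y),
      (κ : ℝ) ^ T.card * 1 ≤ ((2 : ℝ) ^ 2 ^ J) ^ ((2 * C0 + 4) * b) by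
    have hgen : ∀ s' : Finset ℕ, (∀ K, K ∈ s' ↔ (K ∈ Ioc A (A + X) ∧ (K % D = a % D ∧
        ∀ p ∈ P, K % p ∉ Om p))) →
        |(s'.card : ℝ) - (X : ℝ) / D * ∏ p ∈ P, (1 - ((Om p).card : ℝ) / p)| ≤
          (1 / 2 : ℝ) ^ b * ((X : ℝ) / D * ∏ p ∈ P, (1 - ((Om p).card : ℝ) / p)) +
            ((2 : ℝ) ^ 2 ^ J) ^ ((2 * C0 + 4) * b) := by
      intro s' hs''
      have e5 : s' = (Ioc A (A + X)).filter (fun K => K % D = a % D ∧
          ∀ p ∈ P, K % p ∉ Om p) := by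
        ext K
        rw [hs'' K, mem_filter]
      rw [e5]
      exact h1.trans (add_le_add le_rfl hs')
    refine hgen _ (fun K => ?_)
    simp only [mem_filter]
  have hterm : ∀ T ∈ P.powerset.filter (fun T : Finset ℕ => ∏ p ∈ T, p ≤ Y),
      ((κ : ℝ) ^ T.card * 1) ≤ (Y : ℝ) := by
    intro T hT
    rw [mem_filter, mem_powerset] at hT
    rw [mul_one]
    have h2 : κ ^ T.card ≤ ∏ p ∈ T, p := by
      rw [← prod_const]
      apply prod_le_prod'
      intro p hp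
      have h3 := (hPmem p (hT.1 hp)).2.1
      have h4 : κ + 1 ≤ (2 * C0 + 4) * (κ + 1) := Nat.le_mul_of_pos_left _ (by omega)
      omega
    exact_mod_cast h2.trans hT.2
  have hJ : (J : ℝ) + 2 ≤ ((2 : ℝ) ^ 2 ^ J) ^ 2 := by
    have h2 : J + 2 ≤ (2 ^ 2 ^ J) ^ 2 := by
      have h3 : J < 2 ^ J := Nat.lt_two_pow_self
      have h4 : 2 ^ J < 2 ^ 2 ^ J := Nat.lt_two_pow_self
      have h5 : 2 ≤ 2 ^ 2 ^ J := by
        calc 2 = 2 ^ 1 := rfl
          _ ≤ 2 ^ 2 ^ J := Nat.pow_le_pow_right (by norm_num) (Nat.one_le_two_pow)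
      nlinarith
    exact_mod_cast h2
  have hb4 : 4 ≤ 4 * b := by
    have : 1 ≤ (2 * C0 + 4) * (κ + 1) := Nat.mul_pos (by omega) (by omega)
    omega
  have hone : (1 : ℝ) ≤ (2 : ℝ) ^ 2 ^ J := one_le_pow₀ (by norm_num)
  calc ((J : ℝ) + 2) * ∑ T ∈ P.powerset.filter (fun T : Finset ℕ => ∏ p ∈ T, p ≤ Y),
        (κ : ℝ) ^ T.card * 1
      ≤ ((J : ℝ) + 2) * ((Y : ℝ) ^ 2) := by
        apply mul_le_mul_of_nonneg_left _ (by positivity)
        calc ∑ T ∈ P.powerset.filter (fun T : Finset ℕ => ∏ p ∈ T, p ≤ Y), (κ : ℝ) ^ T.card * 1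
            ≤ ∑ _T ∈ P.powerset.filter (fun T : Finset ℕ => ∏ p ∈ T, p ≤ Y), (Y : ℝ) :=
              sum_le_sum hterm
          _ = ((P.powerset.filter (fun T : Finset ℕ => ∏ p ∈ T, p ≤ Y)).card : ℝ) * Y := by
              rw [sum_const, nsmul_eq_mul]
          _ ≤ (Y : ℝ) * Y := by
              apply mul_le_mul_of_nonneg_right _ (by positivity)
              exact_mod_cast card_le P (fun p hp => (hPmem p hp).1) Y
          _ = (Y : ℝ) ^ 2 := by ring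
    _ ≤ ((2 : ℝ) ^ 2 ^ J) ^ 2 * (Y : ℝ) ^ 2 := by
        apply mul_le_mul_of_nonneg_right hJ (by positivity)
    _ = ((2 : ℝ) ^ 2 ^ J) ^ (2 + 2 * (C0 * b)) := by
        rw [hY]
        push_cast
        rw [pow_add, mul_comm 2 (C0 * b), pow_mul _ (C0 * b) 2]
    _ ≤ ((2 : ℝ) ^ 2 ^ J) ^ ((2 * C0 + 4) * b) := by
        apply pow_le_pow_right₀ hone
        have : (2 * C0 + 4) * b = 2 * (C0 * b) + 4 * b := by ring
        omega

end Pool.Agent.Y151.HS
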